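import Mathlib
import Pool.Agent.V11251.KM.Affine

/-! # Vertices of real projective line arrangements: `f₀ ≥ 2 n - 4` for all `n ≥ 10` -/

open Finset Pool.Agent.Helper543.Melchior Pool.Agent.V11251.KM

namespace Pool.Agent.Results.MP_3f465e_co.KellyMoserTen

noncomputable section

open scoped Classical

/-- The space `ℝ³`; the real projective plane consists of its one-dimensional subspaces. -/
abbrev V3 : Type := Fin 3 → ℝ

/-- A point of the real projective plane: a one-dimensional subspace of `ℝ³`. -/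
def IsPoint (p : Submodule ℝ V3) : Prop := Module.finrank ℝ p = 1

/-- A line of the real projective plane: a two-dimensional subspace of `ℝ³`.  A point `p` lies on
the line `l` when `p ≤ l`. -/
def IsLine (l : Submodule ℝ V3) : Prop := Module.finrank ℝ l = 2

/-- A 2-arrangement: a finite set of at least three lines of the real projective plane that do
not all pass through one common point. -/
def IsTwoArrangement (A : Finset (Submodule ℝ V3)) : Prop :=
  3 ≤ A.card ∧ (∀ l ∈ A, IsLine l) ∧ ¬ ∃ p, IsPoint p ∧ ∀ l ∈ A, p ≤ l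

/-- The vertices of an arrangement: the points lying on at least two of its lines. -/
def vertices (A : Finset (Submodule ℝ V3)) : Set (Submodule ℝ V3) :=
  {p | IsPoint p ∧ ∃ l ∈ A, ∃ l' ∈ A, l ≠ l' ∧ p ≤ l ∧ p ≤ l'}

/-- The near-pencil: all lines but one pass through a common point, which is not on the
remaining line. -/
def IsNearPencil (A : Finset (Submodule ℝ V3)) : Prop :=
  ∃ p, IsPoint p ∧ ∃ l₀ ∈ A, ¬ p ≤ l₀ ∧ ∀ l ∈ A, l ≠ l₀ → p ≤ l

theorem finrank_V3 : Module.finrank ℝ V3 = 3 := by simp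

/-- normal vector -/
theorem exists_normal {l : Submodule ℝ V3} (hl : IsLine l) :
    ∃ n : V3, ∀ x : V3, x ∈ l ↔ n 0 * x 0 + n 1 * x 1 + n 2 * x 2 = 0 := by
  have hlt : l < ⊤ := by
    rw [lt_top_iff_ne_top]
    rintro rfl
    unfold IsLine at hl
    rw [finrank_top, finrank_V3] at hl
    omega
  obtain ⟨f, hf, hle⟩ := Submodule.exists_le_ker_of_lt_top l hlt
  have h1 := Module.Dual.finrank_ker_add_one_of_ne_zero (f := f) hf
  have heq : l = LinearMap.ker f := by
    apply Submodule.eq_of_le_of_finrank_le hle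
    unfold IsLine at hl
    rw [finrank_V3] at h1
    omega
  refine ⟨fun i => f (fun j => if i = j then 1 else 0), fun x => ?_⟩
  rw [heq, LinearMap.mem_ker, LinearMap.pi_apply_eq_sum_univ f x, Fin.sum_univ_three]
  simp only [smul_eq_mul]
  constructor <;> intro h <;> linarith

theorem isPoint_span {x : V3} (hx : x ≠ 0) : IsPoint (Submodule.span ℝ {x}) :=
  finrank_span_singleton hx

theorem span_le_iff {x : V3} {l : Submodule ℝ V3} : Submodule.span ℝ {x} ≤ l ↔ x ∈ l := by
  rw [Submodule.span_singleton_le_iff_mem]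

/-- a vector avoiding all the lines, with nonzero first coordinate -/
theorem exists_w (A : Finset (Submodule ℝ V3)) (hA : ∀ l ∈ A, IsLine l) :
    ∃ w : V3, w 0 ≠ 0 ∧ ∀ l ∈ A, w ∉ l := by
  set B : Finset (Submodule ℝ V3) := insert (LinearMap.ker (LinearMap.proj 0 : V3 →ₗ[ℝ] ℝ)) A
    with hB
  have hne : ∀ l ∈ B, l ≠ ⊤ := by
    intro l hl
    rw [hB, mem_insert] at hl
    rcases hl with rfl | hl
    · intro h
      have : (fun _ => 1 : V3) ∈ LinearMap.ker (LinearMap.proj 0 : V3 →ₗ[ℝ] ℝ) := by
        rw [h]; trivial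
      simp at this
    · rintro rfl
      have := hA _ hl
      unfold IsLine at this
      rw [finrank_top, finrank_V3] at this
      omega
  have h := Subspace.biUnion_ne_univ_of_top_notMem (s := B)
    (fun h => hne _ h rfl)
  rw [Set.ne_univ_iff_exists_notMem] at h
  obtain ⟨w, hw⟩ := h
  simp only [Set.mem_iUnion, not_exists, SetLike.mem_coe] at hw
  refine ⟨w, ?_, fun l hl => hw l (mem_insert_of_mem hl)⟩
  have := hw _ (mem_insert_self _ _)
  simpa using this

theorem vertices_finite {A : Finset (Submodule ℝ V3)} (hA : ∀ l ∈ A, IsLine l) :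
    (vertices A).Finite := by
  refine Set.Finite.subset ((A ×ˢ A).image (fun ll => ll.1 ⊓ ll.2)).finite_toSet ?_
  rintro p ⟨hp, l, hl, l', hl', hne, h1, h2⟩
  simp only [coe_image, Set.mem_image, mem_coe, mem_product]
  refine ⟨(l, l'), ⟨hl, hl'⟩, ?_⟩
  symm
  refine Submodule.eq_of_le_of_finrank_le (le_inf h1 h2) ?_
  unfold IsPoint at hp
  rw [hp]
  simp only
  by_contra hcon
  rw [not_le] at hcon
  have e1 : l ⊓ l' = l := Submodule.eq_of_le_of_finrank_le inf_le_left (by
    have := hA l hl; unfold IsLine at this; omega)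
  have e2 : l ⊓ l' = l' := Submodule.eq_of_le_of_finrank_le inf_le_right (by
    have := hA l' hl'; unfold IsLine at this; omega)
  exact hne (e1.symm.trans e2)

/-- **Main theorem (positive answer to Q1).**  Every 2-arrangement of `n ≥ 10` lines of the real
projective plane other than the near-pencil has at least `2 n - 4` vertices. -/
theorem result (A : Finset (Submodule ℝ V3)) (hA : IsTwoArrangement A) (hn : 10 ≤ A.card)
    (hnp : ¬ IsNearPencil A) :
    (vertices A).Finite ∧ 2 * A.card - 4 ≤ (vertices A).ncard := by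
  obtain ⟨-, hline, hcommon⟩ := hA
  refine ⟨vertices_finite hline, ?_⟩
  obtain ⟨w, hw0, hw⟩ := exists_w A hline
  have hnorm : ∀ l ∈ A, ∃ n : V3, n 0 * w 0 + n 1 * w 1 + n 2 * w 2 = 1 ∧
      ∀ x : V3, x ∈ l ↔ n 0 * x 0 + n 1 * x 1 + n 2 * x 2 = 0 := by
    intro l hl
    obtain ⟨n, hn⟩ := exists_normal (hline l hl)
    have h1 : n 0 * w 0 + n 1 * w 1 + n 2 * w 2 ≠ 0 := fun h => hw l hl ((hn w).mpr h)
    set d := n 0 * w 0 + n 1 * w 1 + n 2 * w 2 with hd
    refine ⟨fun i => n i / d, ?_, fun x => ?_⟩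
    · have : n 0 / d * w 0 + n 1 / d * w 1 + n 2 / d * w 2 = d / d := by
        rw [hd]; ring
      rw [this, div_self h1]
    · rw [hn x]
      have : n 0 / d * x 0 + n 1 / d * x 1 + n 2 / d * x 2 =
          (n 0 * x 0 + n 1 * x 1 + n 2 * x 2) / d := by ring
      simp only [this, div_eq_zero_iff, h1, or_false]
  choose! n hn1 hn2 using hnorm
  set pt : Submodule ℝ V3 → Pt := fun l => (n l 1, n l 2) with hpt
  have hinj : Set.InjOn pt A := by
    intro l hl l' hl' h
    simp only [hpt, Prod.mk.injEq] at h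
    have h0 : n l 0 = n l' 0 := by
      have a1 := hn1 l hl
      have a2 := hn1 l' hl'
      rw [h.1, h.2] at a1
      have : n l 0 * w 0 = n l' 0 * w 0 := by linarith
      exact mul_right_cancel₀ hw0 this
    ext x
    rw [hn2 l hl, hn2 l' hl', h0, h.1, h.2]
  set S : Finset Pt := A.image pt with hS
  have hScard : S.card = A.card := card_image_of_injOn hinj
  -- the point of the plane dual to a line of `S`
  have key : ∀ l ∈ A, ∀ l' ∈ A, l ≠ l' → ∃ p, IsPoint p ∧ p ≤ l ∧ p ≤ l' ∧
      ∀ m ∈ A, p ≤ m ↔ cr (pt l) (pt l') (pt m) = 0 := by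
    intro l hl l' hl' hne
    set c := n l 1 * n l' 2 - n l 2 * n l' 1 with hc
    let x : V3 := ![c * w 0, (n l 2 - n l' 2) + c * w 1, (n l' 1 - n l 1) + c * w 2]
    have hx0 : x 0 = c * w 0 := rfl
    have hx1 : x 1 = (n l 2 - n l' 2) + c * w 1 := rfl
    have hx2 : x 2 = (n l' 1 - n l 1) + c * w 2 := rfl
    have hx : x ≠ 0 := by
      intro h
      have h0 : x 0 = 0 := by rw [h]; rfl
      have h1 : x 1 = 0 := by rw [h]; rfl
      have h2 : x 2 = 0 := by rw [h]; rfl
      rw [hx0] at h0
      rw [hx1] at h1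
      rw [hx2] at h2
      have hc0 : c = 0 := by
        rcases mul_eq_zero.mp h0 with h | h
        · exact h
        · exact absurd h hw0
      rw [hc0] at h1 h2
      apply hne
      apply hinj hl hl'
      simp only [hpt, Prod.mk.injEq]
      exact ⟨by linarith, by linarith⟩
    have hval : ∀ m ∈ A, n m 0 * x 0 + n m 1 * x 1 + n m 2 * x 2 =
        cr (pt l) (pt l') (pt m) := by
      intro m hm
      have h1 := hn1 m hm
      rw [hx0, hx1, hx2]
      simp only [cr, hpt]
      have : n m 0 * (c * w 0) + n m 1 * (n l 2 - n l' 2 + c * w 1) +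
          n m 2 * (n l' 1 - n l 1 + c * w 2) =
          c * (n m 0 * w 0 + n m 1 * w 1 + n m 2 * w 2) +
          n m 1 * (n l 2 - n l' 2) + n m 2 * (n l' 1 - n l 1) := by ring
      rw [this, h1, hc]
      ring
    refine ⟨Submodule.span ℝ {x}, isPoint_span hx, ?_, ?_, ?_⟩
    · rw [span_le_iff, hn2 l hl, hval l hl, cr_self_left]
    · rw [span_le_iff, hn2 l' hl', hval l' hl', cr_self_right]
    · intro m hm
      rw [span_le_iff, hn2 m hm, hval m hm]
  have key2 : ∀ L ∈ lines S, ∃ p, p ∈ vertices A ∧ L = (A.filter (fun m => p ≤ m)).image pt := by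
    intro L hL
    obtain ⟨a, ha, b, hb, hab⟩ := exists_two hL
    have haS := line_subset hL ha
    have hbS := line_subset hL hb
    rw [hS, mem_image] at haS hbS
    obtain ⟨l, hl, rfl⟩ := haS
    obtain ⟨l', hl', rfl⟩ := hbS
    have hne : l ≠ l' := by rintro rfl; exact hab rfl
    obtain ⟨p, hp, hpl, hpl', hpm⟩ := key l hl l' hl' hne
    refine ⟨p, ⟨hp, l, hl, l', hl', hne, hpl, hpl'⟩, ?_⟩
    rw [eq_lineOf hL ha hb hab]
    ext y
    rw [mem_lineOf, hS, mem_image, mem_image]
    constructor
    · rintro ⟨⟨m, hm, rfl⟩, hcr⟩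
      exact ⟨m, mem_filter.mpr ⟨hm, (hpm m hm).mpr hcr⟩, rfl⟩
    · rintro ⟨m, hm, rfl⟩
      rw [mem_filter] at hm
      exact ⟨⟨m, hm.1, rfl⟩, (hpm m hm.1).mp hm.2⟩
  have hnoncol : ∃ a ∈ S, ∃ b ∈ S, ∃ c ∈ S, cr a b c ≠ 0 := by
    have h2 : 1 < A.card := by omega
    obtain ⟨l, hl, l', hl', hne⟩ := Finset.one_lt_card.mp h2
    obtain ⟨p, hp, hpl, hpl', hpm⟩ := key l hl l' hl' hne
    by_contra hcon
    push Not at hcon
    apply hcommon
    refine ⟨p, hp, fun m hm => (hpm m hm).mpr ?_⟩
    exact hcon _ (mem_image_of_mem _ hl) _ (mem_image_of_mem _ hl') _ (mem_image_of_mem _ hm)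
  have hmax : ∀ L ∈ lines S, L.card + 2 ≤ S.card := by
    intro L hL
    obtain ⟨p, hp, rfl⟩ := key2 L hL
    rw [hScard, card_image_of_injOn (hinj.mono (by
      intro m hm; exact (mem_filter.mp hm).1))]
    have h1 : (A.filter (fun m => p ≤ m)).card + (A.filter (fun m => ¬ p ≤ m)).card = A.card :=
      Finset.card_filter_add_card_filter_not _
    have h2 : 2 ≤ (A.filter (fun m => ¬ p ≤ m)).card := by
      by_contra hcon
      have h3 : (A.filter (fun m => ¬ p ≤ m)).card ≤ 1 := by omega
      rw [Finset.card_le_one] at h3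
      rcases (A.filter (fun m => ¬ p ≤ m)).eq_empty_or_nonempty with h4 | ⟨l₀, h4⟩
      · apply hcommon
        refine ⟨p, hp.1, fun l hl => ?_⟩
        by_contra hpl
        have : l ∈ A.filter (fun m => ¬ p ≤ m) := mem_filter.mpr ⟨hl, hpl⟩
        rw [h4] at this
        simp at this
      · apply hnp
        have h5 := mem_filter.mp h4
        refine ⟨p, hp.1, l₀, h5.1, h5.2, fun l hl hne => ?_⟩
        by_contra hpl
        exact hne (h3 l (mem_filter.mpr ⟨hl, hpl⟩) l₀ h4)
    omega
  have hmain := affine_main (S := S) (by rw [hScard]; exact hn) hnoncol hmax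
  have hcount : (lines S).card ≤ (vertices A).ncard := by
    have hsub : ((lines S : Finset (Finset Pt)) : Set (Finset Pt)) ⊆
        (fun p => (A.filter (fun m => p ≤ m)).image pt) '' vertices A := by
      intro L hL
      obtain ⟨p, hp, h⟩ := key2 L hL
      exact ⟨p, hp, h.symm⟩
    calc (lines S).card = ((lines S : Finset (Finset Pt)) : Set (Finset Pt)).ncard :=
          (Set.ncard_coe_finset _).symm
      _ ≤ ((fun p => (A.filter (fun m => p ≤ m)).image pt) '' vertices A).ncard :=
          Set.ncard_le_ncard hsub ((vertices_finite hline).image _)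
      _ ≤ (vertices A).ncard := Set.ncard_image_le (vertices_finite hline)
  rw [hScard] at hmain
  omega

end

end Pool.Agent.Results.MP_3f465e_co.KellyMoserTen
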